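import Pool.Agent.R740.BVC3

set_option autoImplicit false

namespace Pool.Agent.Results.MP_b30443_co.BoundedVC

open Finset Pool.Agent.R740.BVC

/-- The translates `B + h`, `h ∈ G`, form a family of VC dimension at most `d`: a set `S` each of
whose subsets `T` is cut out of `S` by some translate of `B` has at most `d` elements. -/
def VCDimLe {G : Type} [AddCommGroup G] (B : Finset G) (d : ℕ) : Prop :=
  ∀ S : Finset G, (∀ T ⊆ S, ∃ h : G, ∀ s ∈ S, s ∈ T ↔ s - h ∈ B) → S.card ≤ d

/-- The same for the translates `B + h` with `h ∈ H`. -/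
def VCDimLeOn {G : Type} [AddCommGroup G] (H B : Finset G) (d : ℕ) : Prop :=
  ∀ S : Finset G, (∀ T ⊆ S, ∃ h ∈ H, ∀ s ∈ S, s ∈ T ↔ s - h ∈ B) → S.card ≤ d

theorem VCDimLe.transVC {G : Type} [AddCommGroup G] [Fintype G] [DecidableEq G] {B : Finset G}
    {d : ℕ} (h : VCDimLe B d) : TransVC univ B d := fun S hS => h S fun T hT => by
  obtain ⟨g, _, hg⟩ := hS T hT
  exact ⟨g, hg⟩

/-- **Progression-free sets of bounded VC dimension.**
(1) If `A ⊆ F_pⁿ` has no nontrivial `k`-term progression and its translates have VC dimension at most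
`d` (or `A` is close to such a set `B`), then
`|A| ≤ 20 (k - 1) (1 + (n / d) log p) p^((1 - 1/d) n)`.
(2) For `d = 2` the exponent is optimal: `F_p^(2m)`, `p` odd, contains sets of `p^m` points without
`3`-term progressions whose translates have VC dimension at most `2`.
(3) Restricted differences, any abelian group: if `A` contains no progression `x, x + y, …,
x + (k-1) y` with `0 ≠ y ∈ H - H`, then `|A| ≤ 20 (k-1) (1 + (log |H|)/d) |H|^(-1/d) |X|`, where `X`
contains the translates `B + h`, `h ∈ H`.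
(4) Popular differences, any finite abelian group, any `η ∈ (0, 1]`: a nonempty set `A` (close to a
set `B`) of VC dimension at most `d` has at least `|G| / (a log a)^d` differences `y` for which at least
`(1 - η) |A|` of its points `x` start a progression `x, x + y, …, x + (k-1) y` in `A`, where
`a = 40 (k - 1) |G| / (η |A|)`. -/
theorem result :
    (∀ (p k n d : ℕ) [Fact p.Prime], 2 ≤ k → 1 ≤ d → ∀ A B : Finset (Fin n → ZMod p),
      (∀ x y : Fin n → ZMod p, (∀ j < k, x + j • y ∈ A) → y = 0) → VCDimLe B d →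
      2 * (k - 1) * (symmDiff A B).card ≤ A.card →
      (A.card : ℝ) ≤
        20 * (k - 1) * (1 + n * Real.log p / d) * (p : ℝ) ^ ((1 - 1 / d : ℝ) * n)) ∧
    (∀ (p m : ℕ) [Fact p.Prime], p ≠ 2 → m ≠ 0 → ∃ A : Finset (Fin (2 * m) → ZMod p),
      (∀ x y : Fin (2 * m) → ZMod p, (∀ j < 3, x + j • y ∈ A) → y = 0) ∧ VCDimLe A 2 ∧
      A.card = p ^ m) ∧
    (∀ (G : Type) [AddCommGroup G] [DecidableEq G] (k d : ℕ), 2 ≤ k → 1 ≤ d →
      ∀ A B H X : Finset G, H.Nonempty →
      (∀ x : G, ∀ h ∈ H, ∀ h' ∈ H, (∀ j < k, x + j • (h - h') ∈ A) → h = h') →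
      VCDimLeOn H B d → 2 * (k - 1) * (symmDiff A B).card ≤ A.card →
      (∀ h ∈ H, ∀ b ∈ B, b + h ∈ X) →
      (A.card : ℝ) ≤
        20 * (k - 1) * (1 + Real.log H.card / d) * (H.card : ℝ) ^ (-(1 / d : ℝ)) * X.card) ∧
    (∀ (G : Type) [AddCommGroup G] [Fintype G] [DecidableEq G] (k d : ℕ), 2 ≤ k → 1 ≤ d →
      ∀ A B : Finset G, A.Nonempty → VCDimLe B d → ∀ η : ℝ, 0 < η → η ≤ 1 →
      2 * ((k : ℝ) - 1) * (symmDiff A B).card ≤ η * A.card →
      ∀ a : ℝ, a = 40 * ((k : ℝ) - 1) * Fintype.card G / (η * A.card) →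
      (Fintype.card G : ℝ) ≤ (a * Real.log a) ^ d *
        ((univ.filter fun y : G => (1 - η) * (A.card : ℝ) ≤
          ((A.filter fun x => ∀ j < k, x + j • y ∈ A).card : ℝ)).card : ℝ)) := by
  classical
  refine ⟨?_, ?_, ?_, ?_⟩
  · intro p k n d _ hk hd A B hAP hV hAB
    have hp0 : (0 : ℝ) < p := by exact_mod_cast (Fact.out : p.Prime).pos
    have h := apfree_bound (A := A) (B := B) (X := univ) (H := univ) hk hd univ_nonempty
      (fun x h _ h' _ hj => sub_eq_zero.1 (hAP x (h - h') hj)) hAB (fun _ _ _ _ => mem_univ _)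
      hV.transVC
    have hcard : ((univ : Finset (Fin n → ZMod p)).card : ℝ) = (p : ℝ) ^ n := by
      rw [card_univ, Fintype.card_fun, ZMod.card, Fintype.card_fin]
      push_cast
      rfl
    rw [hcard, Real.log_pow] at h
    refine h.trans (le_of_eq ?_)
    rw [mul_assoc]
    congr 1
    rw [← Real.rpow_natCast, ← Real.rpow_mul hp0.le, ← Real.rpow_add hp0]
    congr 1
    ring
  · intro p m _ hp2 hm
    obtain ⟨A, h1, h2, h3⟩ := example_two p m hp2 hm
    refine ⟨A, h1, fun S hS => h2 S fun T hT => ?_, h3⟩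
    obtain ⟨h, hh⟩ := hS T hT
    exact ⟨h, mem_univ _, hh⟩
  · intro G _ _ k d hk hd A B H X hH hAP hV hAB hX
    exact apfree_bound hk hd hH hAP hAB hX hV
  · intro G _ _ _ k d hk hd A B hA hV η hη hη1 hAB a ha
    rw [ha]
    have h := popular (A := A) (B := B) hk hd hA hη hη1 hV.transVC hAB
    convert h using 6

end Pool.Agent.Results.MP_b30443_co.BoundedVC
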