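import Pool.Agent.R181.LAT.Sharp

/-!
# MP_b30443_co: exact results for sublattices and for sets defined along a forest

Sublattices of `[k]^n` without combinatorial lines have at most `(k - 1)^n` elements; so sets
without full lines in `F_p^n` which are closed under coordinatewise maxima and minima have at most
`(p - 1)^n` elements, and cap sets closed under such operations, for arbitrary orders of the three
letters in each coordinate, at most `2^n`. Cap sets defined by conditions on the edges of a forest
have at most `2^n` elements too. All of this is sharp.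
-/

namespace Pool.Agent.Results.MP_b30443_co.LatticesAndForests

open Pool.Agent.R181.LAT

/-- (1) The largest size of a sublattice of `{0, …, k - 1}^n` without a combinatorial line is
`(k - 1)^n`. (2) The largest size of a subset of `F_p^n` without a `p`-term progression that is
closed under the coordinatewise maximum and minimum is `(p - 1)^n`, where each coordinate is
ordered as `a < a + b < a + 2 b < …`, and for `p = 3` (cap sets) in any way. (3) The largest size
of a cap set in `F_3^n` which is defined by conditions on the edges of a given forest on the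
coordinates is `2^n`. (4) For conditions on arbitrary pairs of coordinates this fails: a cap set
in `F_3^4` with `17` elements is of this form. -/
theorem result :
    (∀ k n : ℕ, 2 ≤ k → IsGreatest {m | ∃ A : Finset (Fin n → Fin k),
      IsSublattice A ∧ ¬ HasLine A ∧ A.card = m} ((k - 1) ^ n)) ∧
    (∀ (p : ℕ) [Fact p.Prime] (n : ℕ) (ord : Fin n → Fin p ≃ ZMod p),
      (p = 3 ∨ ∀ i, Arithmetic (ord i)) →
      IsGreatest {m | ∃ A, LatticeClosed ord A ∧ APFree A ∧ A.card = m} ((p - 1) ^ n)) ∧
    (∀ (n : ℕ) (par : Fin n → Option (Fin n)), (∀ i j, par i = some j → j < i) →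
      IsGreatest {m | ∃ A, ForestDefinedF par A ∧ APFree A ∧ A.card = m} (2 ^ n)) ∧
    (∃ A : Finset (Fin 4 → ZMod 3), PairDefined A ∧ APFree A ∧ A.card = 17) := by
  refine ⟨?_, ?_, ?_, ⟨Ex, ex_pair, ex_free, ex_card⟩⟩
  · intro k n hk
    refine ⟨sharp_line hk, ?_⟩
    rintro m ⟨A, h1, h2, rfl⟩
    exact card_le hk A h1 h2
  · intro p hp n ord har
    refine ⟨sharp_ap ord, ?_⟩
    rintro m ⟨A, h1, h2, rfl⟩
    rcases har with rfl | har
    · exact lattice_le ord (fun i => arithmetic_three (ord i)) A h2 h1
    · exact lattice_le ord har A h2 h1
  · intro n par hpar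
    refine ⟨sharp_forest par, ?_⟩
    rintro m ⟨A, h1, h2, rfl⟩
    exact forest_le hpar A h1 h2

end Pool.Agent.Results.MP_b30443_co.LatticesAndForests
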