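import Pool.Agent.R790.AP.LongB
import Pool.Agent.R790.AP.DA
import Pool.Agent.R790.AP.DB
import Pool.Agent.R790.AP.DC
import Pool.Agent.R790.AP.DD
import Pool.Agent.R790.AP.DE
import Pool.Agent.R790.AP.DF

/-!
# Lower bounds for sets without long progressions

`λ_{k,p}` is the exponential growth rate of the largest subsets of `F_p^n` without nontrivial
`k`-term progressions. If `k` is close to `p` then the growth rate is at least `p - 1 - o(1)`.

The sets are built from a set `S ⊆ F_p^d` of letters which carries no balanced weight on its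
`k`-term progressions (`Pool.Agent.Results.MP_b30443_co.BlockSymmetric`). Here `S` is the
complement of the `d + 1` hyperplanes `x_1 = 0, …, x_d = 0, x_1 + … + x_d = 1`, with a few points
removed. A point of `S` lies on progressions of length `k = p - j` inside `S` only in a bounded
number of positions, the bound depending on `d` and `j` but not on `p`; so no balanced weight
exists when `k` is larger than this bound.
-/

set_option autoImplicit false

namespace Pool.Agent.Results.MP_b30443_co.LongProgressions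

open Finset

/-- `A ⊆ F_p^n` contains no nontrivial `k`-term progression `x, x+y, …, x+(k-1)y` with `y ≠ 0`. -/
def APFree (k p n : ℕ) (A : Finset (Fin n → ZMod p)) : Prop :=
  ∀ x y : Fin n → ZMod p, (∀ i : ℕ, i < k → x + i • y ∈ A) → y = 0

/-- `r_k(F_p^n)`: the largest size of a subset of `F_p^n` without nontrivial `k`-term
progressions. -/
noncomputable def r (k p n : ℕ) : ℕ :=
  sSup {m : ℕ | ∃ A : Finset (Fin n → ZMod p), APFree k p n A ∧ A.card = m}

/-- `λ_{k,p} = sup_{n ≥ 1} r_k(F_p^n)^{1/n}`. -/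
noncomputable def lam (k p : ℕ) : ℝ :=
  ⨆ n : ℕ, (r k p (n + 1) : ℝ) ^ (1 / ((n : ℝ) + 1))

lemma lam_eq (k p : ℕ) : lam k p = BlockSymmetric.lam k p := rfl

/-- Lower bounds for `λ_{k,p}`. -/
theorem result :
    -- progressions of length close to `p`
    (∀ ε : ℝ, 0 < ε → ∃ m P : ℕ, ∀ p k : ℕ, p.Prime → P ≤ p → k ≤ p →
      (p - k + 1) ^ m ≤ p → (p : ℝ) - 1 - ε ≤ lam k p) ∧
    -- the explicit bound obtained in dimension `d`
    (∀ p d j : ℕ, p.Prime → 1 ≤ d →
      (j + 1) ^ (d + 1) * (j - 1) + (d + 1) * j ^ 2 + j < p →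
      (p : ℝ) ^ d - (d + 1) * (p : ℝ) ^ (d - 1) - 2 ^ (d + 1) * (p : ℝ) ^ (d - 2) ≤
        lam (p - j) p ^ d) ∧
    -- progressions of length `p - 1`
    (∀ p : ℕ, p.Prime → 5 ≤ p → (p : ℝ) ^ 2 - 3 * p + 1 ≤ lam (p - 1) p ^ 2) ∧
    -- small primes
    158 ≤ lam 4 5 ^ 4 ∧ 127 ≤ lam 4 7 ^ 3 ∧ 163 ≤ lam 5 7 ^ 3 ∧ 168 ≤ lam 6 7 ^ 3 ∧
    86 ≤ lam 8 11 ^ 2 ∧ 65 ≤ lam 4 13 ^ 2 := by
  refine ⟨?_, ?_, ?_, ?_, ?_, ?_, ?_, ?_, ?_⟩
  · intro ε hε
    exact R790.AP.Long.lam_long ε hε
  · intro p d j hp hd hj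
    have h1 := R790.AP.Long.lam_dim p d j (p - j) hp hd (by omega) (by omega) (by omega)
    rw [lam_eq]
    linarith
  · intro p hp h5
    exact R790.AP.Long.lam_near p hp h5
  · exact_mod_cast R790.AP.a45_lam
  · exact_mod_cast R790.AP.a47_lam
  · exact_mod_cast R790.AP.a57_lam
  · exact_mod_cast R790.AP.a67_lam
  · exact_mod_cast R790.AP.a811_lam
  · exact_mod_cast R790.AP.a413_lam

end Pool.Agent.Results.MP_b30443_co.LongProgressions
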