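import Pool.Agent.R756.TN.Main
import Pool.Agent.R756.TN.Ex

/-!
# Progression-free sets in `F_p^n` and tree tensor networks

We show that for all `k ≤ p` the sets without `k`-term progressions which are supports of functions
computed by read-once tree tensor networks of bounded bond dimension, over arbitrary fields, are
exponentially small: at most `(p - c)^n` elements, where `c > 0` depends only on `p` and on the bond
dimension `w`. There may be cancellations in the field, the tree and the assignment of the coordinates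
to its leaves are arbitrary. This includes the sets decided by nondeterministic machines with a
bounded number of states which read the coordinates once in any order, and the supports of tensors of
bounded rank (for example of functions with boundedly many Fourier coefficients). The growth rate
`λ_{k,p}` of the problem is the limit of the growth rates for bond dimension `w → ∞`, all of which are
smaller than `p`; so `λ_{k,p} < p` means exactly that the gap does not vanish for `w → ∞`.

The proof needs only that for some disjoint blocks of `m = m(p, d)` coordinates the flattening of the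
function (coordinates in the block against the other ones) has rank at most `d`. If the words of the
block are identified with vectors in `K^d`, then at most `d` words `u` form a basis: the support
`A` is nonempty over an assignment `y` of the other coordinates only if `(u, y) ∈ A` for one of them.
By the density Hales-Jewett theorem the part of `A` over `y` has density at most `1 / (2 d)`. So the
density of `A` is at most half of the largest density of the sections over the words `u`, and these
sections satisfy the same hypotheses for the other blocks. Blocks in a tree: cut the tree into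
clusters of `m` to `2 m` leaves; at least half of them have at most one cluster below them, and such
a cluster has flattening rank at most `w ^ 2`.
-/

set_option autoImplicit false

namespace Pool.Agent.Results.MP_b30443_co.TensorNetworks

open Finset hiding dens
open Filter Topology
open Pool.Agent.Helper868.DHJ Pool.Agent.R756.TN

/-- `A ⊆ F_p^n` contains no nontrivial `k`-term progression `x, x+y, …, x+(k-1)y` with `y ≠ 0`. -/
def APFree (k p n : ℕ) (A : Finset (Fin n → ZMod p)) : Prop :=
  ∀ x y : Fin n → ZMod p, (∀ i : ℕ, i < k → x + i • y ∈ A) → y = 0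

/-- `r_k(F_p^n)`: the largest size of a subset of `F_p^n` without nontrivial `k`-term
progressions. -/
noncomputable def r (k p n : ℕ) : ℕ :=
  sSup {m : ℕ | ∃ A : Finset (Fin n → ZMod p), APFree k p n A ∧ A.card = m}

/-- `λ_{k,p} = sup_{n ≥ 1} r_k(F_p^n)^{1/n}`. -/
noncomputable def lam (k p : ℕ) : ℝ :=
  ⨆ n : ℕ, (r k p (n + 1) : ℝ) ^ (1 / ((n : ℝ) + 1))

/-- `A` is the support `{x | φ (D.eval x) ≠ 0}` of a function computed by a tree tensor network `D`
over a field `K`, with messages in `K ^ W`, bond dimension `card W ≤ w`, which reads every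
coordinate exactly once. -/
def Computed (w : ℕ) {p n : ℕ} (A : Finset (Fin n → ZMod p)) : Prop :=
  ∃ (K : Type) (_ : Field K) (W : Type) (_ : Fintype W) (D : Net K (Fin n) (ZMod p) W)
    (φ : (W → K) →ₗ[K] K), Fintype.card W ≤ w ∧ D.ReadOnce ∧ D.vars = univ ∧
    ∀ x, x ∈ A ↔ φ (D.eval x) ≠ 0

/-- The growth rate for bond dimension `w`: the supremum of `|A|^{1/n}`, `n ≥ 1`, `A ⊆ F_p^n` without
nontrivial `k`-term progressions and computed with bond dimension at most `w`. -/
noncomputable def lamW (k p w : ℕ) : ℝ :=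
  sSup {t : ℝ | ∃ (n : ℕ) (A : Finset (Fin (n + 1) → ZMod p)), APFree k p (n + 1) A ∧
    Computed w A ∧ t = (A.card : ℝ) ^ (1 / ((n : ℝ) + 1))}

/-- `A` is decided by the nondeterministic machine with state set `Q`, initial states `start`,
accepting states `acc` and (time-dependent) transitions `step`, which reads the coordinates once, in
the order `order 0, order 1, …`. -/
def DecidedBy {Q : Type} {p n : ℕ} (start acc : Q → Prop) (step : ℕ → Q → ZMod p → Q → Prop)
    (order : Equiv.Perm (Fin n)) (A : Finset (Fin n → ZMod p)) : Prop :=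
  ∀ x, x ∈ A ↔ ∃ r : ℕ → Q, start (r 0) ∧ acc (r n) ∧
    ∀ t : Fin n, step t (r t) (x (order t)) (r (t + 1))

variable {p : ℕ} [hpf : Fact p.Prime]

lemma lineFree {k n : ℕ} {A : Finset (Fin n → ZMod p)} (hA : APFree k p n A) :
    LineFree (A : Set (Fin n → ZMod p)) := by
  intro u hu
  obtain ⟨i0, hi0⟩ := hu
  by_contra hcon
  push Not at hcon
  have h := hA (pt u 0) (fun i => if u i = none then 1 else 0) (by
    intro j _
    have e : pt u 0 + j • (fun i => if u i = none then (1 : ZMod p) else 0) =
        pt u (j : ZMod p) := by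
      funext i
      simp only [Pi.add_apply, Pi.smul_apply, pt]
      cases hi : u i <;> simp
    rw [e]
    exact hcon _)
  have := congrFun h i0
  simp [hi0] at this

lemma card_eq (n : ℕ) (A : Finset (Fin n → ZMod p)) :
    (#A : ℝ) = dens (A : Set (Fin n → ZMod p)) * (p : ℝ) ^ n := by
  classical
  unfold dens
  rw [av_eq_sum]
  have h1 : ∑ x, ind (A : Set (Fin n → ZMod p)) x = #A := by
    have : ∀ x, ind (A : Set (Fin n → ZMod p)) x = if x ∈ A then 1 else 0 := by
      intro x
      by_cases hx : x ∈ A <;> simp [ind, hx]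
    simp [this]
  have h2 : (Fintype.card (Fin n → ZMod p) : ℝ) = (p : ℝ) ^ n := by
    rw [Fintype.card_fun, Fintype.card_fin, ZMod.card]
    push_cast
    rfl
  have hp : (0 : ℝ) < p := by exact_mod_cast hpf.out.pos
  rw [h1, h2]
  field_simp

lemma bdd (k n : ℕ) : BddAbove {m : ℕ | ∃ A : Finset (Fin n → ZMod p), APFree k p n A ∧
    A.card = m} := by
  refine ⟨Fintype.card (Fin n → ZMod p), ?_⟩
  rintro m ⟨B, _, rfl⟩
  exact Finset.card_le_univ B

lemma card_le_r {k n : ℕ} {A : Finset (Fin n → ZMod p)} (hA : APFree k p n A) :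
    A.card ≤ r k p n := le_csSup (bdd k n) ⟨A, hA, rfl⟩

lemma exists_r {k : ℕ} (hk : 1 ≤ k) (n : ℕ) :
    ∃ A : Finset (Fin n → ZMod p), APFree k p n A ∧ A.card = r k p n := by
  refine Nat.sSup_mem (s := {m : ℕ | ∃ A : Finset (Fin n → ZMod p), APFree k p n A ∧
    A.card = m}) ⟨0, ∅, ?_, rfl⟩ (bdd k n)
  intro x y h
  simpa using h 0 (by omega)

lemma r_le (k n : ℕ) : r k p n ≤ p ^ n := by
  unfold r
  apply csSup_le'
  rintro m ⟨B, _, rfl⟩
  calc B.card ≤ Fintype.card (Fin n → ZMod p) := Finset.card_le_univ B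
    _ = p ^ n := by simp [ZMod.card]

lemma root_le {n : ℕ} {x y : ℝ} (hx : 0 ≤ x) (hy : 0 ≤ y) (h : x ≤ y ^ (n + 1)) :
    x ^ (1 / ((n : ℝ) + 1)) ≤ y := by
  calc x ^ (1 / ((n : ℝ) + 1)) ≤ (y ^ (n + 1)) ^ (1 / ((n : ℝ) + 1)) :=
        Real.rpow_le_rpow hx h (by positivity)
    _ = y := by
        have : ((n : ℝ) + 1) = ((n + 1 : ℕ) : ℝ) := by push_cast; ring
        rw [this, one_div, Real.pow_rpow_inv_natCast hy (by omega)]

lemma le_lam (k n : ℕ) : (r k p (n + 1) : ℝ) ^ (1 / ((n : ℝ) + 1)) ≤ lam k p := by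
  unfold lam
  refine le_ciSup (f := fun n : ℕ => (r k p (n + 1) : ℝ) ^ (1 / ((n : ℝ) + 1))) ?_ n
  refine ⟨(p : ℝ), ?_⟩
  rintro _ ⟨m, rfl⟩
  exact root_le (by positivity) (by positivity) (by exact_mod_cast r_le k (m + 1))

lemma computed_mono {w w' n : ℕ} (h : w ≤ w') {A : Finset (Fin n → ZMod p)}
    (hA : Computed w A) : Computed w' A := by
  obtain ⟨K, i1, W, i2, D, φ, h1, h2⟩ := hA
  exact ⟨K, i1, W, i2, D, φ, h1.trans h, h2⟩

/-- Supports of tensors of rank at most `card W`. -/
lemma computed_rank {K W : Type} [Field K] [Fintype W] {n : ℕ} (hn : 0 < n)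
    (g : W → Fin n → ZMod p → K) (A : Finset (Fin n → ZMod p))
    (hA : ∀ x, x ∈ A ↔ ∑ w, ∏ i, g w i (x i) ≠ 0) : Computed (Fintype.card W) A := by
  have : Nonempty (Fin n) := ⟨⟨0, hn⟩⟩
  obtain ⟨D, h1, h2, h3⟩ := exists_net_rank (K := K) (ι := Fin n) (α := ZMod p) g
  refine ⟨K, inferInstance, W, inferInstance, D, sumOn K univ, le_rfl, h1, h2, fun x => ?_⟩
  rw [hA, sumOn_apply]
  simp only [h3]

/-- Every set is computed with a large bond dimension. -/
lemma computed_all {n : ℕ} (A : Finset (Fin (n + 1) → ZMod p)) :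
    Computed (Fintype.card (Fin (n + 1) → ZMod p)) A := by
  classical
  obtain ⟨D, h1, h2, h3⟩ := exists_net_rank (K := ℚ) (ι := Fin (n + 1)) (α := ZMod p)
    (W := Fin (n + 1) → ZMod p) (fun z i a => if z i = a then 1 else 0)
  refine ⟨ℚ, inferInstance, _, inferInstance, D, sumOn ℚ A, le_rfl, h1, h2, fun x => ?_⟩
  rw [sumOn_apply]
  have h4 : ∀ z : Fin (n + 1) → ZMod p, D.eval x z = if z = x then 1 else 0 := by
    intro z
    rw [h3]
    by_cases hz : z = x
    · subst hz; simp
    · obtain ⟨i, hi⟩ := Function.ne_iff.1 hz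
      rw [if_neg hz]
      exact prod_eq_zero (mem_univ i) (by simp [hi])
  simp [h4]

/-- Sets decided by nondeterministic machines. -/
lemma computed_machine {Q : Type} [Fintype Q] {n : ℕ} (hn : 0 < n) (start acc : Q → Prop)
    (step : ℕ → Q → ZMod p → Q → Prop) (order : Equiv.Perm (Fin n))
    (A : Finset (Fin n → ZMod p)) (hA : DecidedBy start acc step order A) :
    Computed (Fintype.card Q ^ 2) A := by
  classical
  obtain ⟨t, rfl⟩ : ∃ t, n = t + 1 := ⟨n - 1, by omega⟩
  let σ : ℕ → Fin (t + 1) := fun s => if h : s < t + 1 then order ⟨s, h⟩ else order 0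
  have hσ : ∀ s : Fin (t + 1), σ s = order s := by
    intro s
    have h := s.2
    simp only [σ, dif_pos h]
  have hinj : Set.InjOn σ (Set.Iic t) := by
    intro a ha b hb hab
    simp only [Set.mem_Iic] at ha hb
    have h1 := hσ ⟨a, by omega⟩
    have h2 := hσ ⟨b, by omega⟩
    simp only at h1 h2
    rw [h1, h2] at hab
    have := order.injective hab
    simpa using this
  have hev := fun (x : Fin (t + 1) → ZMod p) => mnet_eval step σ x t
  refine ⟨ℚ, inferInstance, Q × Q, inferInstance, mnet step σ t,
    sumOn ℚ (univ.filter fun k => start k.1 ∧ acc k.2), ?_, mnet_readOnce step σ t hinj, ?_, ?_⟩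
  · rw [Fintype.card_prod, pow_two]
  · rw [mnet_vars]
    ext i
    simp only [mem_image, mem_range, mem_univ, iff_true]
    refine ⟨order.symm i, (order.symm i).2, ?_⟩
    rw [hσ]
    simp
  · intro x
    rw [hA, sumOn_apply, Ne, sum_eq_zero_iff_of_nonneg fun k _ => (hev x k.1 k.2).1]
    push Not
    constructor
    · rintro ⟨r, h1, h2, h3⟩
      refine ⟨(r 0, r (t + 1)), by simp [h1, h2], ?_⟩
      refine (hev x _ _).2.2 ⟨r, rfl, rfl, fun s hs => ?_⟩
      have := h3 ⟨s, by omega⟩
      rw [← hσ] at this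
      simpa using this
    · rintro ⟨⟨q, q'⟩, hk, hne⟩
      simp only [mem_filter, mem_univ, true_and] at hk
      obtain ⟨r, rfl, rfl, h3⟩ := (hev x q q').2.1 hne
      refine ⟨r, hk.1, hk.2, fun s => ?_⟩
      rw [← hσ]
      exact h3 s (by omega)

lemma main_bound (w : ℕ) : ∃ ρ : ℝ, 0 < ρ ∧ ρ < 1 ∧
    ∀ (k n : ℕ) (A : Finset (Fin n → ZMod p)), APFree k p n A → Computed w A →
      (#A : ℝ) ≤ (ρ * p) ^ n := by
  obtain ⟨ρ, h0, h1, h⟩ := exp_bound (ZMod p) (by rw [ZMod.card]; exact hpf.out.two_le) w
  refine ⟨ρ, h0, h1, ?_⟩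
  intro k n A hA hc
  obtain ⟨K, i1, W, i2, D, φ, hW, hr, hv, hx⟩ := hc
  have e : (A : Set (Fin n → ZMod p)) = {x | φ (D.eval x) ≠ 0} := by
    ext x
    simp [hx]
  have h2 := h K W hW (Fin n) D hr hv φ (by rw [← e]; exact lineFree hA)
  rw [← e, Fintype.card_fin] at h2
  rw [card_eq, mul_pow]
  exact mul_le_mul_of_nonneg_right h2 (by positivity)

/-- Let `p` be a prime number.
(1) For every `w` there is `ρ < 1` such that every `A ⊆ F_p^n` without nontrivial `k`-term
progressions (any `k`, any `n`) that is a union of `T` sets computed with bond dimension at most `w`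
satisfies `|A| ≤ T (ρ p)^n`.
(2) For every `d` there is `m` such that the following holds. Let the support `A` of a function `f`
on `F_p^n` with values in a field contain no nontrivial `k`-term progression, and let there be `s`
disjoint sets of at least `m` coordinates such that the flattening of `f` (coordinates in the set
against the other ones) has rank at most `d`, for each of them. Then `2^s |A| ≤ p^n`.
(3) The support of a sum of `w` products of functions of one coordinate each (over any field) is
computed with bond dimension `w`.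
(4) A set decided by a nondeterministic machine with `w` states that reads the coordinates once, in
any order, is computed with bond dimension `w^2`.
(5) For every `k ≥ 1` the growth rates `lamW k p w` for bond dimension `w` are smaller than `p`, and
they increase to `λ_{k,p}` for `w → ∞`. So `λ_{k,p} < p` if and only if there is `c > 0` with
`lamW k p w ≤ p - c` for all `w`. -/
theorem result (p : ℕ) [Fact p.Prime] :
    (∀ w : ℕ, ∃ ρ : ℝ, 0 < ρ ∧ ρ < 1 ∧ ∀ (k n T : ℕ) (A : Finset (Fin n → ZMod p))
      (B : Fin T → Finset (Fin n → ZMod p)), APFree k p n A → (∀ x, x ∈ A ↔ ∃ t, x ∈ B t) →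
      (∀ t, Computed w (B t)) → (#A : ℝ) ≤ T * (ρ * p) ^ n) ∧
    (∀ d : ℕ, ∃ m : ℕ, ∀ (K : Type) [Field K] (k n s : ℕ) (f : (Fin n → ZMod p) → K)
      (A : Finset (Fin n → ZMod p)) (B : Fin s → Finset (Fin n)), APFree k p n A →
      (∀ x, x ∈ A ↔ f x ≠ 0) → (∀ j, m ≤ (B j).card) → (∀ i j, i ≠ j → Disjoint (B i) (B j)) →
      (∀ j, Rk d (B j) f) → 2 ^ s * #A ≤ p ^ n) ∧
    (∀ (K W : Type) [Field K] [Fintype W] (n : ℕ), 0 < n → ∀ (g : W → Fin n → ZMod p → K)
      (A : Finset (Fin n → ZMod p)), (∀ x, x ∈ A ↔ ∑ w, ∏ i, g w i (x i) ≠ 0) →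
      Computed (Fintype.card W) A) ∧
    (∀ (Q : Type) [Fintype Q] (n : ℕ), 0 < n → ∀ (start acc : Q → Prop)
      (step : ℕ → Q → ZMod p → Q → Prop) (order : Equiv.Perm (Fin n))
      (A : Finset (Fin n → ZMod p)), DecidedBy start acc step order A →
      Computed (Fintype.card Q ^ 2) A) ∧
    (∀ k : ℕ, 1 ≤ k → (∀ w, lamW k p w < p) ∧ Monotone (lamW k p) ∧
      Tendsto (lamW k p) atTop (𝓝 (lam k p)) ∧
      (lam k p < p ↔ ∃ c : ℝ, 0 < c ∧ ∀ w, lamW k p w ≤ p - c)) := by
  have hp0 : (0 : ℝ) < p := by exact_mod_cast (Fact.out : p.Prime).pos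
  refine ⟨?_, ?_, ?_, ?_, ?_⟩
  · intro w
    obtain ⟨ρ, h0, h1, h⟩ := main_bound (p := p) w
    refine ⟨ρ, h0, h1, ?_⟩
    intro k n T A B hA hB hC
    have h2 : A ⊆ univ.biUnion B := by
      intro x hx
      obtain ⟨t, ht⟩ := (hB x).1 hx
      exact mem_biUnion.2 ⟨t, mem_univ _, ht⟩
    calc (#A : ℝ) ≤ ((∑ t, #(B t) : ℕ) : ℝ) := by
          exact_mod_cast (card_le_card h2).trans card_biUnion_le
      _ = ∑ t, (#(B t) : ℝ) := by push_cast; rfl
      _ ≤ ∑ _t : Fin T, (ρ * p) ^ n := by
          refine sum_le_sum fun t _ => h k n (B t) ?_ (hC t)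
          intro x y hxy
          exact hA x y fun i hi => (hB _).2 ⟨t, hxy i hi⟩
      _ = T * (ρ * p) ^ n := by simp
  · intro d
    obtain ⟨m, hm⟩ := rank_bound (ZMod p) d
    refine ⟨m, ?_⟩
    intro K _ k n s f A B hA hAf hB hdis hrk
    have e : (A : Set (Fin n → ZMod p)) = {x | f x ≠ 0} := by
      ext x
      simp [hAf]
    have h1 := hm K (Fin n) f (List.ofFn B) (by
      intro C hC
      obtain ⟨j, rfl⟩ := (List.mem_ofFn' _ _).1 hC
      exact hB j) (by
      rw [List.pairwise_ofFn]
      intro i j hij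
      exact hdis i j hij.ne) (by
      intro C hC
      obtain ⟨j, rfl⟩ := (List.mem_ofFn' _ _).1 hC
      exact hrk j) (by rw [← e]; exact lineFree hA)
    rw [← e, List.length_ofFn] at h1
    have h2 : (2 : ℝ) ^ s * #A ≤ (p : ℝ) ^ n := by
      rw [card_eq]
      calc (2 : ℝ) ^ s * (dens (A : Set (Fin n → ZMod p)) * (p : ℝ) ^ n)
          ≤ (2 : ℝ) ^ s * ((1 / 2) ^ s * (p : ℝ) ^ n) := by gcongr
        _ = (p : ℝ) ^ n := by
            rw [← mul_assoc, ← mul_pow]
            norm_num
    exact_mod_cast h2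
  · intro K W _ _ n hn g A hA
    exact computed_rank hn g A hA
  · intro Q _ n hn start acc step order A hA
    exact computed_machine hn start acc step order A hA
  · intro k hk
    have hub : ∀ w, ∃ ρ : ℝ, 0 < ρ ∧ ρ < 1 ∧ ∀ t ∈ {t : ℝ | ∃ (n : ℕ)
        (A : Finset (Fin (n + 1) → ZMod p)), APFree k p (n + 1) A ∧
        Computed w A ∧ t = (A.card : ℝ) ^ (1 / ((n : ℝ) + 1))}, t ≤ ρ * p := by
      intro w
      obtain ⟨ρ, h0, h1, h⟩ := main_bound (p := p) w
      refine ⟨ρ, h0, h1, ?_⟩
      rintro _ ⟨n, A, hA, hC, rfl⟩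
      exact root_le (by positivity) (by positivity) (h k (n + 1) A hA hC)
    have hbdd : ∀ w, BddAbove {t : ℝ | ∃ (n : ℕ)
        (A : Finset (Fin (n + 1) → ZMod p)), APFree k p (n + 1) A ∧
        Computed w A ∧ t = (A.card : ℝ) ^ (1 / ((n : ℝ) + 1))} := by
      intro w
      obtain ⟨ρ, _, _, h⟩ := hub w
      exact ⟨ρ * p, h⟩
    have hlt : ∀ w, lamW k p w < p := by
      intro w
      obtain ⟨ρ, h0, h1, h⟩ := hub w
      refine lt_of_le_of_lt (Real.sSup_le h (by positivity)) ?_
      calc ρ * p < 1 * p := by gcongr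
        _ = p := one_mul _
    have hmono : Monotone (lamW k p) := by
      intro w w' hww
      refine Real.sSup_le ?_ (Real.sSup_nonneg ?_)
      · rintro _ ⟨n, A, hA, hC, rfl⟩
        exact le_csSup (hbdd w') ⟨n, A, hA, computed_mono hww hC, rfl⟩
      · rintro _ ⟨n, A, hA, hC, rfl⟩
        positivity
    have hle : ∀ w, lamW k p w ≤ lam k p := by
      intro w
      have hlam0 : 0 ≤ lam k p := le_trans (by positivity) (le_lam (p := p) k 0)
      refine Real.sSup_le ?_ hlam0
      rintro _ ⟨n, A, hA, hC, rfl⟩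
      refine le_trans (Real.rpow_le_rpow (by positivity) ?_ (by positivity)) (le_lam (p := p) k n)
      exact_mod_cast card_le_r hA
    have htend : Tendsto (lamW k p) atTop (𝓝 (lam k p)) := by
      rw [Metric.tendsto_atTop]
      intro ε hε
      obtain ⟨n, hn⟩ := exists_lt_of_lt_ciSup (f := fun n : ℕ =>
        (r k p (n + 1) : ℝ) ^ (1 / ((n : ℝ) + 1))) (show lam k p - ε < lam k p by linarith)
      obtain ⟨A, hA, hAr⟩ := exists_r (p := p) hk (n + 1)
      refine ⟨Fintype.card (Fin (n + 1) → ZMod p), fun w hw => ?_⟩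
      have h1 : (r k p (n + 1) : ℝ) ^ (1 / ((n : ℝ) + 1)) ≤ lamW k p w :=
        le_csSup (hbdd w) ⟨n, A, hA, computed_mono hw (computed_all A), by rw [hAr]⟩
      have h2 := hle w
      rw [Real.dist_eq, abs_sub_lt_iff]
      constructor <;> linarith
    refine ⟨hlt, hmono, htend, ?_⟩
    constructor
    · intro h
      exact ⟨p - lam k p, by linarith, fun w => by linarith [hle w]⟩
    · rintro ⟨c, hc, h⟩
      have : lam k p ≤ p - c := le_of_tendsto' htend h
      linarith

end Pool.Agent.Results.MP_b30443_co.TensorNetworks
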